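import Pool.Agent.N640.WR.Stm

set_option autoImplicit false
set_option linter.all false

/-!
# The colouring of the multigraph (project WR of helper640, part GCOL; helper415)
-/

namespace Pool.Agent.N415.WR

open Finset SimpleGraph Pool.Agent.X76.Wr Pool.Agent.MPd14d18 Pool.Agent.N640.WR
open scoped Classical

section
variable {W : Type} (G' : SimpleGraph W)

theorem ob_refl (v : W) : Ob G' v v := ⟨SimpleGraph.Iso.refl, rfl⟩

theorem ob_symm {v w : W} (h : Ob G' v w) : Ob G' w v := by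
  obtain ⟨φ, hφ⟩ := h
  exact ⟨φ.symm, by rw [← hφ]; simp⟩

theorem ob_trans {u v w : W} (h : Ob G' u v) (h' : Ob G' v w) : Ob G' u w := by
  obtain ⟨φ, hφ⟩ := h
  obtain ⟨ψ, hψ⟩ := h'
  exact ⟨φ.trans ψ, by simp [hφ, hψ]⟩

theorem ob_orb {v w : W} (h : Ob G' v w) : orb G' v = orb G' w := orb_eq G' v w h

variable (idx : W → ℕ)

theorem df_inj (h3 : ∀ w, idx w < orb G' w)
    (h4 : ∀ w w', Ob G' w w' → idx w = idx w' → w = w') {v w w' : W} (hw : Ob G' v w)
    (hw' : Ob G' v w') (h : df G' idx v w = df G' idx v w') : w = w' := by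
  apply h4 w w' (ob_trans G' (ob_symm G' hw) hw')
  have a1 := h3 v
  have a2 := h3 w
  have a3 := h3 w'
  rw [← ob_orb G' hw] at a2
  rw [← ob_orb G' hw'] at a3
  unfold df at h
  rw [mod_aux _ _ _ a1 a2, mod_aux _ _ _ a1 a3] at h
  split_ifs at h <;> omega

theorem df_symm (h3 : ∀ w, idx w < orb G' w)
    (h4 : ∀ w w', Ob G' w w' → idx w = idx w' → w = w') {v w : W} (hw : Ob G' v w)
    (hne : v ≠ w) : df G' idx w v = orb G' v - df G' idx v w := by
  have a1 := h3 v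
  have a2 := h3 w
  have a4 : idx v ≠ idx w := fun h => hne (h4 v w hw h)
  rw [← ob_orb G' hw] at a2
  unfold df
  rw [← ob_orb G' hw, mod_aux _ _ _ a1 a2, mod_aux _ _ _ a2 a1]
  split_ifs <;> omega

variable (d : ℕ) (A : W → ℕ → Finset ℕ)

theorem me_ne {v w : W} {i : ℕ} (h : ME G' d idx A v w i) : v ≠ w := by
  rcases h with ⟨_, h⟩ | ⟨_, _, h, _⟩
  · exact G'.ne_of_adj h
  · exact h

theorem me_link {v w : W} {i : ℕ} (h : ME G' d idx A v w i) : Ob G' v w ∨ G'.Adj v w := by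
  rcases h with ⟨_, h⟩ | ⟨_, h, _, _⟩
  · exact Or.inr h
  · exact Or.inl h

theorem me_symm (h3 : ∀ w, idx w < orb G' w)
    (h4 : ∀ w w', Ob G' w w' → idx w = idx w' → w = w')
    (h8 : ∀ v w, Ob G' v w → A v = A w)
    (h9 : ∀ v, ∀ i < d, ∀ δ ∈ A v i, 1 ≤ δ ∧ δ < orb G' v ∧ orb G' v - δ ∈ A v i)
    {v w : W} {i : ℕ} (h : ME G' d idx A v w i) : ME G' d idx A w v i := by
  rcases h with ⟨h, h'⟩ | ⟨hi, ho, hne, hA⟩
  · exact Or.inl ⟨h, h'.symm⟩
  · refine Or.inr ⟨hi, ob_symm G' ho, hne.symm, ?_⟩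
    rw [df_symm G' idx h3 h4 ho hne, ← h8 v w ho]
    exact (h9 v i hi _ hA).2.2

/-- the multiplicity -/
noncomputable def zz (v w : W) : ℕ :=
  ((range (d + 1)).filter fun i => ME G' d idx A v w i).card

theorem zz_symm (h3 : ∀ w, idx w < orb G' w)
    (h4 : ∀ w w', Ob G' w w' → idx w = idx w' → w = w')
    (h8 : ∀ v w, Ob G' v w → A v = A w)
    (h9 : ∀ v, ∀ i < d, ∀ δ ∈ A v i, 1 ≤ δ ∧ δ < orb G' v ∧ orb G' v - δ ∈ A v i)
    (v w : W) : zz G' idx d A v w = zz G' idx d A w v := by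
  unfold zz
  congr 1
  ext i
  rw [mem_filter, mem_filter]
  exact ⟨fun h => ⟨h.1, me_symm G' idx d A h3 h4 h8 h9 h.2⟩,
    fun h => ⟨h.1, me_symm G' idx d A h3 h4 h8 h9 h.2⟩⟩

theorem zz_le (v w : W) : zz G' idx d A v w ≤ d + 1 := by
  unfold zz
  exact (card_filter_le _ _).trans (le_of_eq (card_range _))

theorem zz_full {v w : W} (h : zz G' idx d A v w = d + 1) (i : ℕ) (hi : i ≤ d) :
    ME G' d idx A v w i := by
  unfold zz at h
  have h1 : (range (d + 1)).filter (fun i => ME G' d idx A v w i) = range (d + 1) :=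
    eq_of_subset_of_card_le (filter_subset _ _) (by rw [h, card_range])
  have h2 : i ∈ (range (d + 1)).filter (fun i => ME G' d idx A v w i) := by
    rw [h1, mem_range]
    omega
  exact (mem_filter.1 h2).2

theorem zz_adj {v w : W} (h : G'.Adj v w) : zz G' idx d A v w ≠ 0 := by
  unfold zz
  rw [← Nat.pos_iff_ne_zero, card_pos]
  exact ⟨d, mem_filter.2 ⟨mem_range.2 (by omega), Or.inl ⟨rfl, h⟩⟩⟩

theorem zz_le_one {v w : W} (h : ∀ i < d, ¬ ME G' d idx A v w i) : zz G' idx d A v w ≤ 1 := by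
  unfold zz
  refine (card_le_card (t := {d}) ?_).trans (le_of_eq (card_singleton _))
  intro i hi
  obtain ⟨h1, h2⟩ := mem_filter.1 hi
  rw [mem_singleton]
  rw [mem_range] at h1
  by_contra hne
  exact h i (by omega) h2

variable [Fintype W] [DecidableRel G'.Adj]

theorem card_d (v : W) : (univ.filter fun w => ME G' d idx A v w d).card ≤ G'.degree v := by
  rw [← SimpleGraph.card_neighborFinset_eq_degree]
  refine card_le_card ?_
  intro w hw
  rw [SimpleGraph.mem_neighborFinset]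
  rcases (mem_filter.1 hw).2 with ⟨_, h⟩ | ⟨h, _⟩
  · exact h
  · omega

theorem card_i (h3 : ∀ w, idx w < orb G' w)
    (h4 : ∀ w w', Ob G' w w' → idx w = idx w' → w = w') (v : W) (i : ℕ) (hi : i < d) :
    (univ.filter fun w => ME G' d idx A v w i).card ≤ (A v i).card := by
  have hw : ∀ w ∈ univ.filter (fun w => ME G' d idx A v w i), Ob G' v w ∧ df G' idx v w ∈ A v i := by
    intro w hw
    rcases (mem_filter.1 hw).2 with ⟨h, _⟩ | ⟨_, h, _, h'⟩
    · omega
    · exact ⟨h, h'⟩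
  refine card_le_card_of_injOn (fun w => df G' idx v w) ?_ ?_
  · intro w hw1
    exact mem_coe.2 (hw w (mem_coe.1 hw1)).2
  · intro w hw1 w' hw2 h
    exact df_inj G' idx h3 h4 (hw w (mem_coe.1 hw1)).1 (hw w' (mem_coe.1 hw2)).1 h

theorem sum_zz (h3 : ∀ w, idx w < orb G' w)
    (h4 : ∀ w w', Ob G' w w' → idx w = idx w' → w = w') (v : W) :
    ∑ w, zz G' idx d A v w ≤ G'.degree v + ∑ i ∈ range d, (A v i).card := by
  have h1 : ∑ w, zz G' idx d A v w =
      ∑ i ∈ range (d + 1), (univ.filter fun w => ME G' d idx A v w i).card := by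
    unfold zz
    simp only [card_filter]
    rw [sum_comm]
  rw [h1, sum_range_succ, add_comm]
  refine add_le_add (card_d G' idx d A v) (sum_le_sum fun i hi => ?_)
  exact card_i G' idx d A h3 h4 v i (mem_range.1 hi)

end

section
variable {W : Type} [Fintype W] (G' : SimpleGraph W) [DecidableRel G'.Adj]
    (d D : ℕ) (idx : W → ℕ) (t : W → ℕ) (A : W → ℕ → Finset ℕ)

theorem bound (h1 : 1 ≤ d) (h2 : ∀ w, d * orb G' w + G'.degree w ≤ D)
    (h3 : ∀ w, idx w < orb G' w) (h4 : ∀ w w', Ob G' w w' → idx w = idx w' → w = w')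
    (h6 : ∀ v, t v + 1 ≤ d * orb G' v)
    (h10 : ∀ v, ∑ i ∈ Finset.range d, (A v i).card = d * (orb G' v - 1) - t v) (v : W) :
    ∑ w, zz G' idx d A v w + t v + 1 ≤ D ∧
      (0 < d * (orb G' v - 1) - t v → ∑ w, zz G' idx d A v w + t v + d ≤ D) := by
  have a1 := sum_zz G' idx d A h3 h4 v
  rw [h10] at a1
  have a2 := h2 v
  have a3 := h6 v
  obtain ⟨k, hk⟩ : ∃ k, orb G' v = k + 1 := ⟨orb G' v - 1, by have := h3 v; omega⟩
  rw [hk] at a1 a2 a3 ⊢
  rw [Nat.add_sub_cancel] at a1 ⊢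
  rw [Nat.mul_succ] at a2 a3
  generalize d * k = q at a1 a2 a3 ⊢
  constructor
  · omega
  · intro h
    omega

theorem elim_hyp (h1 : 1 ≤ d) (h2 : ∀ w, d * orb G' w + G'.degree w ≤ D)
    (h3 : ∀ w, idx w < orb G' w) (h4 : ∀ w w', Ob G' w w' → idx w = idx w' → w = w')
    (h5 : ∀ v w, Ob G' v w ∨ G'.Adj v w → t v = t w)
    (h6 : ∀ v, t v + 1 ≤ d * orb G' v)
    (h7 : ∀ v, ∃ u, Relation.ReflTransGen (fun a b => Ob G' a b ∨ G'.Adj a b) v u ∧
      d * orb G' u ≤ t u + 2)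
    (h8 : ∀ v w, Ob G' v w → A v = A w)
    (h10 : ∀ v, ∑ i ∈ Finset.range d, (A v i).card = d * (orb G' v - 1) - t v)
    (N : ℕ) (S : Finset W) (hS : ∀ v ∈ S, D - t v = N) (hne : S.Nonempty) :
    ∃ x ∈ S, ∃ u0, ∀ u ∈ S, u ≠ x → zz G' idx d A x u ≠ 0 →
      (∑ w ∈ S.erase u, zz G' idx d A u w) + zz G' idx d A x u ≤ N + (if u = u0 then 1 else 0) := by
  by_contra hcon
  push Not at hcon
  have hdS : ∀ u, ∑ w ∈ S.erase u, zz G' idx d A u w ≤ ∑ w, zz G' idx d A u w := fun u =>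
    sum_le_sum_of_subset_of_nonneg (subset_univ _) fun _ _ _ => Nat.zero_le _
  have viol : ∀ x ∈ S, ∀ u ∈ S, N < (∑ w ∈ S.erase u, zz G' idx d A u w) + zz G' idx d A x u →
      zz G' idx d A x u = d + 1 ∧ 0 < d * (orb G' u - 1) - t u ∧
      (∑ w ∈ S.erase u, zz G' idx d A u w) + zz G' idx d A x u = N + 1 ∧
      ∑ w, zz G' idx d A u w ≤ ∑ w ∈ S.erase u, zz G' idx d A u w := by
    intro x hx u hu hlt
    obtain ⟨b1, b2⟩ := bound G' d D idx t A h1 h2 h3 h4 h6 h10 u
    have b3 := hdS u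
    have b4 := hS u hu
    have b5 := zz_le G' idx d A x u
    rcases Nat.eq_zero_or_pos (d * (orb G' u - 1) - t u) with hr | hr
    · exfalso
      have b6 : zz G' idx d A x u ≤ 1 := by
        refine zz_le_one G' idx d A ?_
        intro i hi hME
        rcases hME with ⟨h, _⟩ | ⟨_, ho, _, hA⟩
        · omega
        · have b7 := h10 u
          rw [hr] at b7
          have b8 := (sum_eq_zero_iff.1 b7) i (mem_range.2 hi)
          rw [h8 x u ho, card_eq_zero.1 b8] at hA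
          exact absurd hA (notMem_empty _)
      omega
    · have b6 := b2 hr
      refine ⟨by omega, hr, by omega, by omega⟩
  have two : ∀ x ∈ S, ∃ u ∈ S, ∃ u' ∈ S, u ≠ u' ∧
      N < (∑ w ∈ S.erase u, zz G' idx d A u w) + zz G' idx d A x u ∧
      N < (∑ w ∈ S.erase u', zz G' idx d A u' w) + zz G' idx d A x u' := by
    intro x hx
    obtain ⟨u, hu, _, _, hu1⟩ := hcon x hx x
    obtain ⟨u', hu', _, _, hu1'⟩ := hcon x hx u
    have c1 : N < (∑ w ∈ S.erase u, zz G' idx d A u w) + zz G' idx d A x u :=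
      lt_of_le_of_lt (Nat.le_add_right _ _) hu1
    have c2 : N < (∑ w ∈ S.erase u', zz G' idx d A u' w) + zz G' idx d A x u' :=
      lt_of_le_of_lt (Nat.le_add_right _ _) hu1'
    refine ⟨u, hu, u', hu', ?_, c1, c2⟩
    rintro rfl
    rw [if_pos rfl] at hu1'
    have c3 := (viol x hx u hu c1).2.2.1
    omega
  have hob : ∀ {x u : W}, zz G' idx d A x u = d + 1 → Ob G' x u := by
    intro x u h
    rcases zz_full G' idx d A h 0 (by omega) with ⟨h', _⟩ | ⟨_, h', _, _⟩
    · omega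
    · exact h'
  -- along the chain
  obtain ⟨x, hx⟩ := hne
  obtain ⟨u, hxu, hu2⟩ := h7 x
  have hchain : ∃ y ∈ S, Ob G' y u := by
    clear hu2
    induction hxu with
    | refl => exact ⟨x, hx, ob_refl G' x⟩
    | tail _ hbc ih =>
      rename_i b c _
      obtain ⟨y, hy, hyb⟩ := ih
      rcases hbc with h | h
      · exact ⟨y, hy, ob_trans G' hyb h⟩
      · obtain ⟨u1, hu1, _, _, _, hv, _⟩ := two y hy
        obtain ⟨e1, _, _, e4⟩ := viol y hy u1 hu1 hv
        obtain ⟨φ, hφ⟩ := ob_trans G' (ob_symm G' hyb) (hob e1)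
        refine ⟨φ c, ?_, ⟨φ.symm, by simp⟩⟩
        have hadj : G'.Adj u1 (φ c) := by
          rw [← hφ]
          exact φ.map_rel_iff.2 h
        by_contra hnot
        have hz := zz_adj G' idx d A hadj
        have f1 : φ c ∉ S.erase u1 := fun h' => hnot (mem_of_mem_erase h')
        have f2 : ∑ w ∈ insert (φ c) (S.erase u1), zz G' idx d A u1 w ≤ ∑ w, zz G' idx d A u1 w :=
          sum_le_sum_of_subset_of_nonneg (subset_univ _) fun _ _ _ => Nat.zero_le _
        rw [sum_insert f1] at f2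
        omega
  obtain ⟨y, hy, hyu⟩ := hchain
  rw [← ob_orb G' hyu, ← h5 y u (Or.inl hyu)] at hu2
  obtain ⟨u1, hu1, u2, hu2', hne, hv1, hv2⟩ := two y hy
  obtain ⟨e1, e2, _, _⟩ := viol y hy u1 hu1 hv1
  obtain ⟨e1', _, _, _⟩ := viol y hy u2 hu2' hv2
  rw [← ob_orb G' (hob e1), ← h5 y u1 (Or.inl (hob e1))] at e2
  obtain ⟨k, hk⟩ : ∃ k, orb G' y = k + 1 := ⟨orb G' y - 1, by have := h3 y; omega⟩
  have hc := h10 y
  rw [hk, Nat.add_sub_cancel] at e2 hc
  rw [hk, Nat.mul_succ] at hu2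
  have hd : d = 1 := by omega
  rw [hd] at hc e2 hu2
  rw [sum_range_one] at hc
  have hc1 : (A y 0).card ≤ 1 := by omega
  have g1 : df G' idx y u1 ∈ A y 0 := by
    rcases zz_full G' idx d A e1 0 (by omega) with ⟨h', _⟩ | ⟨_, _, _, h'⟩
    · omega
    · exact h'
  have g2 : df G' idx y u2 ∈ A y 0 := by
    rcases zz_full G' idx d A e1' 0 (by omega) with ⟨h', _⟩ | ⟨_, _, _, h'⟩
    · omega
    · exact h'
  exact hne (df_inj G' idx h3 h4 (hob e1) (hob e1') (card_le_one.1 hc1 _ g1 _ g2))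

end

theorem exists_F : ∃ F : Finset ℕ → Finset ℕ → ℕ → ℕ, ∀ E C : Finset ℕ, E.card = C.card →
    (∀ i ∈ E, F E C i ∈ C) ∧ ∀ i ∈ E, ∀ j ∈ E, F E C i = F E C j → i = j := by
  have h : ∀ E C : Finset ℕ, ∃ f : ℕ → ℕ, E.card = C.card →
      (∀ i ∈ E, f i ∈ C) ∧ ∀ i ∈ E, ∀ j ∈ E, f i = f j → i = j := by
    intro E C
    by_cases hc : E.card = C.card
    · refine ⟨fun i => if h : i ∈ E then (Finset.equivOfCardEq hc ⟨i, h⟩ : C) else 0, fun _ =>
        ⟨?_, ?_⟩⟩
      · intro i hi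
        simp only [dif_pos hi]
        exact Subtype.coe_prop _
      · intro i hi j hj hij
        simp only [dif_pos hi, dif_pos hj] at hij
        have h1 := (Finset.equivOfCardEq hc).injective (Subtype.ext hij)
        exact congrArg Subtype.val h1
    · exact ⟨id, fun h => absurd h hc⟩
  choose F hF using h
  exact ⟨F, hF⟩

theorem gcol_ (hel : S_ELIM) : S_GCOL := by
  intro W _ G' _ d D idx t A h1 h2 h3 h4 h5 h6 h7 h8 h9 h10
  have hb := bound G' d D idx t A h1 h2 h3 h4 h6 h10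
  have hel' : ∀ N : ℕ, ∃ m : ℕ → W → W, (∀ c v, m c (m c v) = v) ∧
      ∀ u w, u ≠ w → mu (Finset.range N) m u w =
        if u ∈ (univ.filter fun v => D - t v = N) ∧ w ∈ (univ.filter fun v => D - t v = N) then
          zz G' idx d A u w else 0 := by
    intro N
    refine hel W (zz G' idx d A) N (univ.filter fun v => D - t v = N)
      (zz_symm G' idx d A h3 h4 h8 h9) ?_ ?_
    · intro v hv
      have e1 := (mem_filter.1 hv).2
      have e2 : ∑ w ∈ (univ.filter fun v => D - t v = N).erase v, zz G' idx d A v w ≤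
          ∑ w, zz G' idx d A v w :=
        sum_le_sum_of_subset_of_nonneg (subset_univ _) fun _ _ _ => Nat.zero_le _
      have e3 := (hb v).1
      omega
    · intro S hS hne
      exact elim_hyp G' d D idx t A h1 h2 h3 h4 h5 h6 h7 h8 h10 N S
        (fun v hv => (mem_filter.1 (hS hv)).2) hne
  choose m hm1 hm2 using hel'
  obtain ⟨F, hF⟩ := exists_F
  obtain ⟨E, hE⟩ : ∃ E : W → W → Finset ℕ, E = fun v w =>
    (range (d + 1)).filter fun i => ME G' d idx A v w i := ⟨_, rfl⟩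
  obtain ⟨C, hC⟩ : ∃ C : W → W → Finset ℕ, C = fun v w =>
    (range (D - t v)).filter fun c => m (D - t v) c v = w := ⟨_, rfl⟩
  have hEs : ∀ v w, E v w = E w v := by
    intro v w
    rw [hE]
    ext i
    rw [mem_filter, mem_filter]
    exact ⟨fun h => ⟨h.1, me_symm G' idx d A h3 h4 h8 h9 h.2⟩,
      fun h => ⟨h.1, me_symm G' idx d A h3 h4 h8 h9 h.2⟩⟩
  have hCs : ∀ v w, t v = t w → C v w = C w v := by
    intro v w ht
    rw [hC]
    ext c
    rw [mem_filter, mem_filter, ht]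
    constructor
    · rintro ⟨a1, a2⟩
      have a3 := hm1 (D - t w) c v
      rw [a2] at a3
      exact ⟨a1, a3⟩
    · rintro ⟨a1, a2⟩
      have a3 := hm1 (D - t w) c w
      rw [a2] at a3
      exact ⟨a1, a3⟩
  have hCm : ∀ v w c, c ∈ C v w → c < D - t v ∧ m (D - t v) c v = w := by
    intro v w c hc
    rw [hC] at hc
    exact ⟨mem_range.1 (mem_filter.1 hc).1, (mem_filter.1 hc).2⟩
  have hcard : ∀ v w, v ≠ w → t v = t w → (E v w).card = (C v w).card := by
    intro v w hne ht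
    have a1 := hm2 (D - t v) v w hne
    rw [if_pos ⟨mem_filter.2 ⟨mem_univ _, rfl⟩, mem_filter.2 ⟨mem_univ _, by rw [ht]⟩⟩,
      mu_eq_card] at a1
    rw [hE, hC]
    unfold zz at a1
    simp only
    rw [← a1]
  have hmem : ∀ v w i, ME G' d idx A v w i → i ∈ E v w := by
    intro v w i h
    rw [hE]
    refine mem_filter.2 ⟨mem_range.2 ?_, h⟩
    rcases h with ⟨h, _⟩ | ⟨h, _⟩ <;> omega
  have hlink : ∀ v w i, ME G' d idx A v w i → v ≠ w ∧ t v = t w := fun v w i h =>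
    ⟨me_ne G' idx d A h, h5 v w (me_link G' idx d A h)⟩
  have hgC : ∀ v w i, ME G' d idx A v w i → F (E v w) (C v w) i ∈ C v w := by
    intro v w i h
    obtain ⟨a1, a2⟩ := hlink v w i h
    exact (hF _ _ (hcard v w a1 a2)).1 i (hmem v w i h)
  refine ⟨fun v w i => F (E v w) (C v w) i, ?_, ?_⟩
  · intro v w i h
    obtain ⟨a1, a2⟩ := hlink v w i h
    constructor
    · have a3 := hgC v w i h
      have a4 := (hCm _ _ _ a3).1
      show F (E v w) (C v w) i + t v < D
      omega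
    · show F (E v w) (C v w) i = F (E w v) (C w v) i
      rw [hEs v w, hCs v w a2]
  · intro v w i w' i' h h' he
    have he' : F (E v w) (C v w) i = F (E v w') (C v w') i' := he
    have a3 := hgC v w i h
    have a4 := hgC v w' i' h'
    rw [← he'] at a4
    have hw : w = w' := (hCm _ _ _ a3).2.symm.trans (hCm _ _ _ a4).2
    subst hw
    obtain ⟨a1, a2⟩ := hlink v w i h
    exact ⟨rfl, (hF _ _ (hcard v w a1 a2)).2 i (hmem v w i h) i' (hmem v w i' h') he'⟩

end Pool.Agent.N415.WR
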